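import Mathlib

/-!
# Gabor systems with multi-tiling windows: no Riesz basis in general

For every dimension `d ≥ 1`, every full rank lattice `Λ = M ℤ^d` and every level `k ≥ 2` we give a
bounded measurable set `Ω` which multi-tiles `ℝ^d` by `Λ` at level `k`, and for which there is no
set `Γ` of frequencies at all such that the Gabor system `G(χ_Ω, Λ × Γ)` is a Riesz basis of
`L²(ℝ^d)`.
-/

open MeasureTheory

namespace Pool.Agent.Results.MP_9d6809_an.NoGaborRieszBasis

/-- A family `f` in a complex inner product space `H` is a Riesz basis if it is the image of an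
orthonormal (Hilbert) basis of `H` under a bounded invertible linear operator of `H`. -/
def IsRieszBasis {ι H : Type*} [NormedAddCommGroup H] [InnerProductSpace ℂ H] (f : ι → H) : Prop :=
  ∃ (b : HilbertBasis ι ℂ H) (T : H ≃L[ℂ] H), ∀ i, f i = T (b i)

/-- The lattice `M (ℤ^d)` in `ℝ^d`. -/
def lattice {d : ℕ} (M : Matrix (Fin d) (Fin d) ℝ) : Set (Fin d → ℝ) :=
  Set.range fun z : Fin d → ℤ => M.mulVec fun i => (z i : ℝ)

/-- `Ω` multi-tiles `ℝ^d` by `Λ` at level `k`: for almost every `x` there are exactly `k` elements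
`l ∈ Λ` with `x ∈ Ω + l`. -/
def MultiTiles {d : ℕ} (Ω Λ : Set (Fin d → ℝ)) (k : ℕ) : Prop :=
  ∀ᵐ x : Fin d → ℝ, {l | l ∈ Λ ∧ x - l ∈ Ω}.encard = k

/-- The time-frequency shift `x ↦ exp (2 π i γ·x) g (x - l)`. -/
noncomputable def gaborShift {d : ℕ} (g : (Fin d → ℝ) → ℂ) (l γ : Fin d → ℝ) :
    (Fin d → ℝ) → ℂ :=
  fun x => Complex.exp (2 * Real.pi * Complex.I * ((γ ⬝ᵥ x : ℝ) : ℂ)) * g (x - l)

/-- The Gabor system `G(g, Λ × Γ)`, indexed by `Λ × Γ`, is a Riesz basis of `L²(ℝ^d)`. -/
def GaborIsRieszBasis {d : ℕ} (g : (Fin d → ℝ) → ℂ) (Λ Γ : Set (Fin d → ℝ)) : Prop :=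
  ∃ F : Λ × Γ → Lp ℂ 2 (volume : Measure (Fin d → ℝ)),
    (∀ i, (F i : (Fin d → ℝ) → ℂ) =ᵐ[volume] gaborShift g (i.1 : Fin d → ℝ) i.2) ∧
    IsRieszBasis F

/-! ### Proofs -/

/-- abstract telescoping obstruction to being a Riesz basis -/
theorem abstract_obstruction {ι H : Type*} [NormedAddCommGroup H] [InnerProductSpace ℂ H]
    (f : ι → H) (i : ℕ → ι) (hi : Function.Injective i) (G : ℕ → H) (k : ℕ) (hk : 2 ≤ k)
    (hf : ∀ n, f (i n) = ∑ j ∈ Finset.range k, G (n + j)) (C : ℝ) (hG : ∀ n, ‖G n‖ ≤ C) :
    ¬ IsRieszBasis f := by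
  classical
  rintro ⟨b, T, hT⟩
  have hstep : ∀ m, f (i m) - f (i (m + 1)) = G m - G (m + k) := by
    intro m
    have h1 : ∑ j ∈ Finset.range (k + 1), G (m + j) = f (i m) + G (m + k) := by
      rw [Finset.sum_range_succ, hf]
    have h2 : ∑ j ∈ Finset.range (k + 1), G (m + j) = f (i (m + 1)) + G m := by
      rw [Finset.sum_range_succ', hf]
      congr 1
      refine Finset.sum_congr rfl fun j _ => ?_
      congr 1
      ring
    have h3 := h1.symm.trans h2
    rw [sub_eq_sub_iff_add_eq_add, h3, add_comm]
  have htel : ∀ J : ℕ, ∑ j ∈ Finset.range J, (f (i (k * j)) - f (i (k * j + 1)))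
      = G 0 - G (k * J) := by
    intro J
    induction J with
    | zero => simp
    | succ J ih =>
      rw [Finset.sum_range_succ, ih, hstep]
      have : k * (J + 1) = k * J + k := by ring
      rw [this]
      abel
  -- the corresponding sum in the orthonormal basis
  have hb : Orthonormal ℂ (fun j : ℕ => b (i (k * j))) := by
    apply b.orthonormal.comp (fun j : ℕ => i (k * j))
    intro a c hac
    have := hi hac
    exact Nat.eq_of_mul_eq_mul_left (by omega) this
  have hlow : ∀ J : ℕ,
      (J : ℝ) ≤ ‖∑ j ∈ Finset.range J, (b (i (k * j)) - b (i (k * j + 1)))‖ ^ 2 := by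
    intro J
    have hB := hb.sum_inner_products_le (s := Finset.range J)
      (∑ j ∈ Finset.range J, (b (i (k * j)) - b (i (k * j + 1))))
    have hone : ∀ a ∈ Finset.range J,
        ‖inner ℂ (b (i (k * a)))
          (∑ j ∈ Finset.range J, (b (i (k * j)) - b (i (k * j + 1))))‖ ^ 2 = (1 : ℝ) := by
      intro a ha
      have hval : inner ℂ (b (i (k * a)))
          (∑ j ∈ Finset.range J, (b (i (k * j)) - b (i (k * j + 1)))) = (1 : ℂ) := by
        rw [inner_sum]
        rw [Finset.sum_eq_single a]
        · rw [inner_sub_right]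
          have h1 := (orthonormal_iff_ite.mp b.orthonormal) (i (k * a)) (i (k * a))
          have h2 := (orthonormal_iff_ite.mp b.orthonormal) (i (k * a)) (i (k * a + 1))
          rw [h1, h2]
          have hne : i (k * a) ≠ i (k * a + 1) := fun h => by
            have := hi h
            omega
          simp [hne]
        · intro c _ hc
          rw [inner_sub_right]
          have h1 := (orthonormal_iff_ite.mp b.orthonormal) (i (k * a)) (i (k * c))
          have h2 := (orthonormal_iff_ite.mp b.orthonormal) (i (k * a)) (i (k * c + 1))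
          rw [h1, h2]
          have hne1 : i (k * a) ≠ i (k * c) := fun h => by
            have := hi h
            have := Nat.eq_of_mul_eq_mul_left (by omega) this
            omega
          have hne2 : i (k * a) ≠ i (k * c + 1) := fun h => by
            have h3 := hi h
            have h4 : (k * a) % k = (k * c + 1) % k := by rw [h3]
            rw [Nat.mul_mod_right, Nat.mul_add_mod, Nat.mod_eq_of_lt (by omega)] at h4
            omega
          simp [hne1, hne2]
        · intro h
          exact absurd ha h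
      rw [hval]
      simp
    rw [Finset.sum_congr rfl hone] at hB
    simpa using hB
  have hC : 0 ≤ C := le_trans (norm_nonneg _) (hG 0)
  -- upper bound
  have hup : ∀ J : ℕ,
      ‖∑ j ∈ Finset.range J, (b (i (k * j)) - b (i (k * j + 1)))‖ ≤
        ‖(T.symm : H →L[ℂ] H)‖ * (2 * C) := by
    intro J
    have heq : ∑ j ∈ Finset.range J, (b (i (k * j)) - b (i (k * j + 1)))
        = (T.symm : H →L[ℂ] H) (G 0 - G (k * J)) := by
      rw [← htel J]
      rw [map_sum]
      refine Finset.sum_congr rfl fun j _ => ?_
      rw [hT, hT]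
      simp
    rw [heq]
    refine le_trans (ContinuousLinearMap.le_opNorm _ _) ?_
    refine mul_le_mul_of_nonneg_left ?_ (norm_nonneg _)
    refine le_trans (norm_sub_le _ _) ?_
    have := hG 0
    have := hG (k * J)
    linarith
  obtain ⟨J, hJ⟩ := exists_nat_gt ((‖(T.symm : H →L[ℂ] H)‖ * (2 * C)) ^ 2)
  have h1 := hlow J
  have h2 := pow_le_pow_left₀ (norm_nonneg _) (hup J) 2
  linarith

section concrete

variable {d : ℕ} (M : Matrix (Fin d) (Fin d) ℝ)

/-- the box with side `k` in direction `i0` and sides `1` in the other directions, shifted by `n`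
in direction `i0` -/
def box (i0 : Fin d) (n : ℝ) (w : ℝ) : Set (Fin d → ℝ) :=
  Set.pi Set.univ fun i => if i = i0 then Set.Ico n (n + w) else Set.Ico 0 1

theorem box_eq (i0 : Fin d) (n w : ℝ) :
    box i0 n w = Set.pi Set.univ fun i => Set.Ico (if i = i0 then n else 0)
      (if i = i0 then n + w else 1) := by
  unfold box
  congr 1
  funext i
  split_ifs <;> rfl

theorem measurableSet_box (i0 : Fin d) (n w : ℝ) : MeasurableSet (box i0 n w) := by
  rw [box_eq]
  exact MeasurableSet.univ_pi fun i => measurableSet_Ico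

theorem volume_box (i0 : Fin d) (n w : ℝ) :
    volume (box i0 n w) = ENNReal.ofReal w := by
  rw [box_eq, Real.volume_pi_Ico]
  rw [Finset.prod_eq_single i0]
  · simp
  · intro b _ hb
    simp [hb]
  · simp

/-- the set `M (box)` -/
noncomputable def cell (i0 : Fin d) (n w : ℝ) : Set (Fin d → ℝ) :=
  (Matrix.toLin' M⁻¹) ⁻¹' (box i0 n w)

theorem measurableSet_cell (i0 : Fin d) (n w : ℝ) : MeasurableSet (cell M i0 n w) := by
  apply measurableSet_preimage _ (measurableSet_box i0 n w)
  exact (LinearMap.continuous_of_finiteDimensional _).measurable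

theorem volume_cell (hM : M.det ≠ 0) (i0 : Fin d) (n w : ℝ) :
    volume (cell M i0 n w) = ENNReal.ofReal |M.det| * ENNReal.ofReal w := by
  unfold cell
  rw [MeasureTheory.Measure.addHaar_preimage_linearMap]
  · rw [volume_box]
    congr 2
    rw [LinearMap.det_toLin', Matrix.det_nonsing_inv]
    simp
  · rw [LinearMap.det_toLin', Matrix.det_nonsing_inv]
    simpa using hM

/-- the plain exponential `x ↦ exp (2 π i γ·x)` -/
noncomputable def expo (γ : Fin d → ℝ) (x : Fin d → ℝ) : ℂ :=
  Complex.exp (2 * Real.pi * Complex.I * ((γ ⬝ᵥ x : ℝ) : ℂ))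

theorem norm_expo (γ x : Fin d → ℝ) : ‖expo γ x‖ = 1 := by
  unfold expo
  rw [Complex.norm_exp]
  simp

theorem continuous_expo (γ : Fin d → ℝ) : Continuous (expo γ) := by
  unfold expo
  fun_prop

theorem memLp_cell (hM : M.det ≠ 0) (γ : Fin d → ℝ) (i0 : Fin d) (n w : ℝ) :
    MemLp ((cell M i0 n w).indicator (expo γ)) 2 volume := by
  have h1 : MemLp ((cell M i0 n w).indicator (fun _ => (1 : ℂ))) 2 volume := by
    apply memLp_indicator_const 2 (measurableSet_cell M i0 n w) 1
    right
    rw [volume_cell M hM]
    exact ENNReal.mul_ne_top ENNReal.ofReal_ne_top ENNReal.ofReal_ne_top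
  refine h1.of_le ?_ ?_
  · exact ((continuous_expo γ).aestronglyMeasurable).indicator (measurableSet_cell M i0 n w)
  · refine Filter.Eventually.of_forall fun x => ?_
    rw [norm_indicator_eq_indicator_norm, norm_indicator_eq_indicator_norm]
    refine Set.indicator_le_indicator ?_
    simp [norm_expo]

/-- the norm of the cell functions is bounded by a constant -/
theorem norm_cell_le (hM : M.det ≠ 0) (γ : Fin d → ℝ) (i0 : Fin d) (n : ℝ) :
    ‖(memLp_cell M hM γ i0 n 1).toLp‖ ≤ (ENNReal.ofReal |M.det| ^ (1 / 2 : ℝ)).toReal := by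
  rw [Lp.norm_toLp]
  apply ENNReal.toReal_mono
  · exact ENNReal.rpow_ne_top_of_nonneg (by norm_num) ENNReal.ofReal_ne_top
  · calc eLpNorm ((cell M i0 n 1).indicator (expo γ)) 2 volume
        ≤ eLpNorm ((cell M i0 n 1).indicator (fun _ => (1 : ℂ))) 2 volume := by
          apply eLpNorm_mono
          intro x
          rw [norm_indicator_eq_indicator_norm, norm_indicator_eq_indicator_norm]
          refine Set.indicator_le_indicator ?_
          simp [norm_expo]
      _ = ENNReal.ofReal |M.det| ^ (1 / 2 : ℝ) := by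
          rw [eLpNorm_indicator_const (measurableSet_cell M i0 n 1) (by norm_num) (by norm_num),
            volume_cell M hM]
          simp

theorem sum_box (i0 : Fin d) (n : ℝ) (k : ℕ) (x : Fin d → ℝ) (c : ℂ) :
    (box i0 n k).indicator (fun _ => c) x =
      ∑ j ∈ Finset.range k, (box i0 (n + j) 1).indicator (fun _ => c) x := by
  induction k with
  | zero =>
    simp only [Finset.range_zero, Finset.sum_empty]
    apply Set.indicator_of_notMem
    intro h
    have := h i0 (Set.mem_univ _)
    simp at this
  | succ k ih =>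
    rw [Finset.sum_range_succ, ← ih]
    have hunion : box i0 n ((k + 1 : ℕ) : ℝ) = box i0 n k ∪ box i0 (n + k) 1 := by
      ext y
      constructor
      · intro h
        by_cases hy : y i0 < n + k
        · left
          intro i hi
          have hii := h i hi
          by_cases hi0 : i = i0
          · subst hi0
            simp only [if_true, Set.mem_Ico] at hii ⊢
            exact ⟨hii.1, hy⟩
          · simpa [hi0] using hii
        · right
          intro i hi
          have hii := h i hi
          by_cases hi0 : i = i0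
          · subst hi0
            simp only [if_true, Set.mem_Ico] at hii ⊢
            push_cast at hii
            exact ⟨not_lt.mp hy, by linarith [hii.2]⟩
          · simpa [hi0] using hii
      · rintro (h | h)
        · intro i hi
          have hii := h i hi
          by_cases hi0 : i = i0
          · subst hi0
            simp only [if_true, Set.mem_Ico] at hii ⊢
            push_cast
            exact ⟨hii.1, by linarith [hii.2]⟩
          · simpa [hi0] using hii
        · intro i hi
          have hii := h i hi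
          by_cases hi0 : i = i0
          · subst hi0
            simp only [if_true, Set.mem_Ico] at hii ⊢
            push_cast
            have : (0 : ℝ) ≤ k := Nat.cast_nonneg k
            exact ⟨by linarith [hii.1], by linarith [hii.2]⟩
          · simpa [hi0] using hii
    have hdisj : Disjoint (box i0 n k) (box i0 (n + k) 1) := by
      rw [Set.disjoint_left]
      intro y h1 h2
      have h1' := h1 i0 (Set.mem_univ _)
      have h2' := h2 i0 (Set.mem_univ _)
      simp only [if_true, Set.mem_Ico] at h1' h2'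
      linarith [h1'.2, h2'.1]
    rw [hunion, Set.indicator_union_of_disjoint hdisj]

theorem cell_indicator (i0 : Fin d) (n w : ℝ) (f : (Fin d → ℝ) → ℂ) (x : Fin d → ℝ) :
    (cell M i0 n w).indicator f x
      = (box i0 n w).indicator (fun _ => f x) (M⁻¹.mulVec x) := by
  unfold cell
  by_cases h : M⁻¹.mulVec x ∈ box i0 n w
  · rw [Set.indicator_of_mem h, Set.indicator_of_mem]
    simpa using h
  · rw [Set.indicator_of_notMem h, Set.indicator_of_notMem]
    simpa using h

/-- the lattice vector `n M e_{i0}` -/
noncomputable def vec (i0 : Fin d) (n : ℕ) : Fin d → ℝ :=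
  M.mulVec fun i => (((Pi.single i0 (n : ℤ) : Fin d → ℤ) i : ℤ) : ℝ)

theorem vec_mem (i0 : Fin d) (n : ℕ) : vec M i0 n ∈ lattice M :=
  ⟨Pi.single i0 (n : ℤ), rfl⟩

theorem inv_mulVec_vec (hM : M.det ≠ 0) (i0 : Fin d) (n : ℕ) :
    M⁻¹.mulVec (vec M i0 n) = Pi.single i0 (n : ℝ) := by
  unfold vec
  rw [Matrix.mulVec_mulVec, Matrix.nonsing_inv_mul _ (by simpa using hM), Matrix.one_mulVec]
  funext i
  by_cases h : i = i0
  · subst h; simp
  · simp [h]

theorem vec_injective (hM : M.det ≠ 0) (i0 : Fin d) : Function.Injective (vec M i0) := by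
  intro a b hab
  have h : M⁻¹.mulVec (vec M i0 a) = M⁻¹.mulVec (vec M i0 b) := by rw [hab]
  rw [inv_mulVec_vec M hM, inv_mulVec_vec M hM] at h
  have := congrFun h i0
  simpa using this

theorem box_shift (i0 : Fin d) (m : ℕ) (w : ℝ) (y : Fin d → ℝ) :
    y - Pi.single i0 (m : ℝ) ∈ box i0 0 w ↔ y ∈ box i0 m w := by
  constructor
  · intro h i hi
    have hii := h i hi
    by_cases hi0 : i = i0
    · subst hi0
      simp only [if_true, Set.mem_Ico, Pi.sub_apply, Pi.single_eq_same] at hii ⊢
      exact ⟨by linarith [hii.1], by linarith [hii.2]⟩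
    · simpa [hi0] using hii
  · intro h i hi
    have hii := h i hi
    by_cases hi0 : i = i0
    · subst hi0
      simp only [if_true, Set.mem_Ico, Pi.sub_apply, Pi.single_eq_same] at hii ⊢
      exact ⟨by linarith [hii.1], by linarith [hii.2]⟩
    · simpa [hi0] using hii

theorem gaborShift_eq_sum (hM : M.det ≠ 0) (γ : Fin d → ℝ) (i0 : Fin d) (k m : ℕ)
    (x : Fin d → ℝ) :
    gaborShift ((cell M i0 0 k).indicator 1) (vec M i0 m) γ x
      = ∑ j ∈ Finset.range k, (cell M i0 ((m + j : ℕ) : ℝ) 1).indicator (expo γ) x := by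
  unfold gaborShift
  rw [show ((cell M i0 0 k).indicator (1 : (Fin d → ℝ) → ℂ) (x - vec M i0 m))
    = (box i0 m k).indicator (fun _ => (1 : ℂ)) (M⁻¹.mulVec x) from ?_]
  · rw [sum_box, Finset.mul_sum]
    refine Finset.sum_congr rfl fun j _ => ?_
    rw [cell_indicator]
    push_cast
    by_cases h : M⁻¹.mulVec x ∈ box i0 ((m : ℝ) + j) 1
    · rw [Set.indicator_of_mem h, Set.indicator_of_mem h]
      simp [expo]
    · rw [Set.indicator_of_notMem h, Set.indicator_of_notMem h]
      simp
  · rw [cell_indicator]
    have h1 : M⁻¹.mulVec (x - vec M i0 m) = M⁻¹.mulVec x - Pi.single i0 (m : ℝ) := by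
      rw [Matrix.mulVec_sub, inv_mulVec_vec M hM]
    rw [h1]
    by_cases h : M⁻¹.mulVec x ∈ box i0 (m : ℝ) k
    · rw [Set.indicator_of_mem h, Set.indicator_of_mem ((box_shift i0 m k _).mpr h)]
      rfl
    · rw [Set.indicator_of_notMem h,
        Set.indicator_of_notMem (fun h' => h ((box_shift i0 m k _).mp h'))]

theorem multiTiles_cell (hM : M.det ≠ 0) (i0 : Fin d) (k : ℕ) :
    MultiTiles (cell M i0 0 k) (lattice M) k := by
  refine Filter.Eventually.of_forall fun x => ?_
  set y := M⁻¹.mulVec x with hy
  have hinj : Function.Injective fun z : Fin d → ℤ => M.mulVec fun i => (z i : ℝ) := by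
    intro a b hab
    have h : M⁻¹.mulVec (M.mulVec fun i => (a i : ℝ)) = M⁻¹.mulVec (M.mulVec fun i => (b i : ℝ)) := by
      simp only at hab
      rw [hab]
    rw [Matrix.mulVec_mulVec, Matrix.mulVec_mulVec, Matrix.nonsing_inv_mul _ (by simpa using hM),
      Matrix.one_mulVec, Matrix.one_mulVec] at h
    funext i
    have := congrFun h i
    exact_mod_cast this
  set S : Finset (Fin d → ℤ) := Fintype.piFinset fun i =>
    Finset.Ioc (⌊y i⌋ - (if i = i0 then (k : ℤ) else 1)) ⌊y i⌋ with hS
  have hset : {l | l ∈ lattice M ∧ x - l ∈ cell M i0 0 k}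
      = (fun z : Fin d → ℤ => M.mulVec fun i => (z i : ℝ)) '' (S : Set (Fin d → ℤ)) := by
    ext l
    simp only [Set.mem_ofPred_eq, Set.mem_image]
    have key : ∀ z : Fin d → ℤ, (x - (M.mulVec fun i => (z i : ℝ)) ∈ cell M i0 0 k) ↔
        z ∈ (S : Set (Fin d → ℤ)) := by
      intro z
      have h1 : M⁻¹.mulVec (x - (M.mulVec fun i => (z i : ℝ))) = y - fun i => (z i : ℝ) := by
        rw [Matrix.mulVec_sub, Matrix.mulVec_mulVec, Matrix.nonsing_inv_mul _ (by simpa using hM),
          Matrix.one_mulVec]
      have h2 : (x - (M.mulVec fun i => (z i : ℝ)) ∈ cell M i0 0 k) ↔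
          (y - fun i => (z i : ℝ)) ∈ box i0 0 k := by
        rw [← h1]
        unfold cell
        simp
      rw [h2, hS]
      simp only [Finset.mem_coe, Fintype.mem_piFinset, Finset.mem_Ioc]
      unfold box
      simp only [Set.mem_pi, Set.mem_univ, true_implies, Pi.sub_apply]
      refine forall_congr' fun i => ?_
      by_cases hi : i = i0
      · simp only [hi, if_true, Set.mem_Ico, zero_add]
        constructor
        · rintro ⟨h3, h4⟩
          constructor
          · rw [sub_lt_iff_lt_add, Int.floor_lt]
            push_cast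
            linarith
          · rw [Int.le_floor]
            linarith
        · rintro ⟨h3, h4⟩
          rw [sub_lt_iff_lt_add, Int.floor_lt] at h3
          rw [Int.le_floor] at h4
          push_cast at h3
          constructor <;> linarith
      · simp only [hi, if_false, Set.mem_Ico]
        constructor
        · rintro ⟨h3, h4⟩
          constructor
          · rw [sub_lt_iff_lt_add, Int.floor_lt]
            push_cast
            linarith
          · rw [Int.le_floor]
            linarith
        · rintro ⟨h3, h4⟩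
          rw [sub_lt_iff_lt_add, Int.floor_lt] at h3
          rw [Int.le_floor] at h4
          push_cast at h3
          constructor <;> linarith
    constructor
    · rintro ⟨⟨z, rfl⟩, hz⟩
      exact ⟨z, (key z).mp hz, rfl⟩
    · rintro ⟨z, hz, rfl⟩
      exact ⟨⟨z, rfl⟩, (key z).mpr hz⟩
  rw [hset, hinj.encard_image, Set.encard_coe_eq_coe_finsetCard, hS, Fintype.card_piFinset]
  rw [Finset.prod_eq_single i0]
  · simp
  · intro b _ hb
    simp [hb]
  · simp

theorem isBounded_cell (hM : M.det ≠ 0) (i0 : Fin d) (k : ℕ) :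
    Bornology.IsBounded (cell M i0 0 k) := by
  have hsub : cell M i0 0 k ⊆ (Matrix.toLin' M) '' (Set.pi Set.univ fun _ => Set.Icc (0 : ℝ) (k + 1)) := by
    intro x hx
    refine ⟨M⁻¹.mulVec x, ?_, ?_⟩
    · have hx' : M⁻¹.mulVec x ∈ box i0 0 k := by simpa [cell] using hx
      intro i hi
      have hii := hx' i hi
      have hk : (0 : ℝ) ≤ k := Nat.cast_nonneg k
      by_cases hi0 : i = i0
      · simp only [hi0, if_true, Set.mem_Ico, zero_add] at hii
        simp only [hi0, Set.mem_Icc]
        exact ⟨hii.1, by linarith [hii.2]⟩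
      · simp only [hi0, if_false, Set.mem_Ico] at hii
        simp only [Set.mem_Icc]
        exact ⟨hii.1, by linarith [hii.2]⟩
    · simp [Matrix.mulVec_mulVec, Matrix.mul_nonsing_inv _ (show IsUnit M.det by simpa using hM)]
  refine Bornology.IsBounded.subset ?_ hsub
  apply IsCompact.isBounded
  apply IsCompact.image
  · exact isCompact_univ_pi fun _ => isCompact_Icc
  · exact LinearMap.continuous_of_finiteDimensional _

end concrete

/-- **Main theorem.**  In every dimension `d ≥ 1`, for every full rank lattice `Λ = M ℤ^d` and every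
level `k ≥ 2` there is a bounded measurable set `Ω` of positive finite measure that multi-tiles
`ℝ^d` by `Λ` at level `k` and for which the Gabor system `G(χ_Ω, Λ × Γ)` is not a Riesz basis of
`L²(ℝ^d)`, whatever the set `Γ`. -/
theorem result (d : ℕ) (hd : 1 ≤ d) (M : Matrix (Fin d) (Fin d) ℝ) (hM : M.det ≠ 0)
    (k : ℕ) (hk : 2 ≤ k) :
    ∃ Ω : Set (Fin d → ℝ), MeasurableSet Ω ∧ Bornology.IsBounded Ω ∧ 0 < volume Ω ∧
      volume Ω < ⊤ ∧ MultiTiles Ω (lattice M) k ∧
      ∀ Γ : Set (Fin d → ℝ), ¬ GaborIsRieszBasis (Ω.indicator 1) (lattice M) Γ := by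
  set i0 : Fin d := ⟨0, hd⟩
  refine ⟨cell M i0 0 k, measurableSet_cell M i0 0 k, isBounded_cell M hM i0 k, ?_, ?_,
    multiTiles_cell M hM i0 k, ?_⟩
  · rw [volume_cell M hM]
    apply ENNReal.mul_pos
    · simpa using hM
    · simp; omega
  · rw [volume_cell M hM]
    exact ENNReal.mul_lt_top ENNReal.ofReal_lt_top ENNReal.ofReal_lt_top
  · intro Γ
    rintro ⟨F, hF, hR⟩
    rcases Set.eq_empty_or_nonempty Γ with hΓ | ⟨γ, hγ⟩
    · -- no frequencies: the space would be trivial
      subst hΓ
      obtain ⟨b, T, hT⟩ := hR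
      have hne : ∃ v : Lp ℂ 2 (volume : Measure (Fin d → ℝ)), v ≠ 0 := by
        refine ⟨indicatorConstLp 2 (measurableSet_cell M i0 0 1) (μ := volume)
          (by rw [volume_cell M hM]; exact ENNReal.mul_ne_top ENNReal.ofReal_ne_top
                ENNReal.ofReal_ne_top) (1 : ℂ), ?_⟩
        intro h0
        have h1 := congrArg norm h0
        rw [norm_indicatorConstLp (by norm_num) (by norm_num)] at h1
        simp only [norm_one, norm_zero, one_mul] at h1
        rw [measureReal_def, volume_cell M hM] at h1
        simp at h1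
        exact hM h1
      obtain ⟨v, hv⟩ := hne
      apply hv
      have hspan := b.dense_span
      have hrange : Set.range b = ∅ := by
        rw [Set.range_eq_empty_iff]
        exact ⟨fun i => i.2.2⟩
      rw [hrange, Submodule.span_empty] at hspan
      have : v ∈ (⊤ : Submodule ℂ (Lp ℂ 2 (volume : Measure (Fin d → ℝ)))) := trivial
      rw [← hspan] at this
      simpa using this
    · -- the telescoping obstruction
      refine abstract_obstruction F (fun n => (⟨vec M i0 n, vec_mem M i0 n⟩, ⟨γ, hγ⟩)) ?_
        (fun n => (memLp_cell M hM γ i0 n 1).toLp) k hk ?_ _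
        (fun n => norm_cell_le M hM γ i0 n) hR
      · intro a b hab
        apply vec_injective M hM i0
        have := congrArg (fun p => (p.1 : Fin d → ℝ)) hab
        simpa using this
      · intro n
        apply Lp.ext
        refine (hF _).trans ?_
        have hsum : ((∑ j ∈ Finset.range k, (memLp_cell M hM γ i0 ((n + j : ℕ) : ℝ) 1).toLp :
            Lp ℂ 2 (volume : Measure (Fin d → ℝ))) : (Fin d → ℝ) → ℂ) =ᵐ[volume]
            ∑ j ∈ Finset.range k, (cell M i0 ((n + j : ℕ) : ℝ) 1).indicator (expo γ) := by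
          refine (Lp.coeFn_finsetSum _ _).trans ?_
          refine (eventuallyEq_sum fun j _ => ?_)
          exact MemLp.coeFn_toLp _
        refine Filter.EventuallyEq.trans ?_ hsum.symm
        refine Filter.Eventually.of_forall fun x => ?_
        rw [Finset.sum_apply]
        exact gaborShift_eq_sum M hM γ i0 k n x

end Pool.Agent.Results.MP_9d6809_an.NoGaborRieszBasis
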